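import Pool.Agent.Work.MP_065151_ry.Orb

/-!
# Injectivity of the iterates, wandering, and the criterion for pairs of rays
-/

set_option autoImplicit false

open Topology Metric Filter Set

namespace RY

open R4C (f K)
open HH

variable {c : ℂ} {ψ : ℂ → ℂ}

/-- A subcontinuum that contains `w` and `-w` contains the critical point. -/
lemma neg_pair (h0 : (0 : ℂ) ∈ K c) (hi : interior (K c) = ∅) {X : Set ℂ} (hX : IsCompact X)
    (hXc : IsPreconnected X) (hXK : X ⊆ K c) {w : ℂ} (hw : w ≠ 0) (h1 : w ∈ X) (h2 : -w ∈ X) :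
    (0 : ℂ) ∈ X := by
  by_contra h0X
  have hT : IsCompact (f c '' X) := hX.image (f_cont c)
  have hTK : f c '' X ⊆ K c := by
    rintro _ ⟨z, hz, rfl⟩
    exact (f_mem_K c z).2 (hXK hz)
  have hcT : c ∉ f c '' X := by
    rintro ⟨u, hu, hu2⟩
    have hu3 : f c u = f c 0 := by rw [hu2, f_zero]
    have h3 : u = 0 := by
      rcases f_eq hu3 with h3 | h3
      · exact h3
      · rw [h3, neg_zero]
    exact h0X (h3 ▸ hu)
  obtain ⟨s, hs, hsq⟩ := sqrt_of_log (log_unbdd hT (full_sub h0 hi hTK)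
    (compl_unbdd hT.isBounded) disjoint_compl_left (x := c) hcT)
  have hcont : ContinuousOn (fun z => s (f c z)) X :=
    hs.comp (f_cont c).continuousOn fun z hz => ⟨z, hz, rfl⟩
  have hsq2 : ∀ z ∈ X, s (f c z) ^ 2 = z ^ 2 := by
    intro z hz
    rw [hsq _ ⟨z, hz, rfl⟩]
    show z ^ 2 + c - c = z ^ 2
    ring
  have hz0 : ∀ z ∈ X, z ≠ 0 := by
    rintro z hz rfl
    exact h0X hz
  rcases hXc.eq_or_eq_neg_of_sq_eq (f := fun z => s (f c z)) (g := fun z => z) hcont
    continuousOn_id (fun z hz => hsq2 z hz) (fun {z} hz => hz0 z hz) with h | h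
  · have e1 : s (f c w) = w := h h1
    have e2 : s (f c (-w)) = -w := h h2
    rw [f_neg, e1] at e2
    exact hw (self_eq_neg.1 e2)
  · have e1 : s (f c w) = -w := h h1
    have e2 : s (f c (-w)) = - -w := h h2
    rw [f_neg, e1, neg_neg] at e2
    exact hw (self_eq_neg.1 e2.symm)

lemma PS.iter (hno : ∀ T, ¬ Half c T) {X : Set ℂ} (hX : PS c X) (n : ℕ) :
    PS c ((f c)^[n] '' X) := by
  induction n with
  | zero => rwa [Function.iterate_zero, Set.image_id]
  | succ n ih =>
    rw [Function.iterate_succ', Set.image_comp]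
    exact ih.image hno

lemma principal_iter (h : Bo c ψ) (t : ℝ) (n : ℕ) :
    (f c)^[n] '' principal ψ t = principal ψ (2 ^ n * t) := by
  induction n with
  | zero => rw [Function.iterate_zero, Set.image_id, pow_zero, one_mul]
  | succ n ih =>
    rw [Function.iterate_succ', Set.image_comp, ih, principal_image h, pow_succ]
    congr 1
    ring

/-- The iterates are injective. -/
theorem inj_iter (h : Bo c ψ) (h0 : (0 : ℂ) ∈ K c) (hi : interior (K c) = ∅)
    (hno : ∀ T, ¬ Half c T) (n : ℕ) : ∀ (X : Set ℂ), PS c X → ∀ t : ℝ,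
      ¬ K c ⊆ principal ψ t → (X ∩ principal ψ t).Nonempty → Set.InjOn (f c)^[n] X := by
  induction n with
  | zero =>
    intro X hX t ht hm
    exact Set.injOn_id X
  | succ n ih =>
    intro X hX t ht hm
    rw [Function.iterate_succ]
    refine Set.InjOn.comp (t := f c '' X) ?_ ?_ (Set.mapsTo_image _ _)
    · have hP := (principal_PS h ht).image hno
      rw [principal_image h] at hP
      obtain ⟨x, hx1, hx2⟩ := hm
      refine ih (f c '' X) (hX.image hno) (2 * t) hP.ne ⟨f c x, ⟨x, hx1, rfl⟩, ?_⟩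
      rw [← principal_image h]
      exact ⟨x, hx2, rfl⟩
    · intro u hu v hv huv
      by_contra hne
      have h1 : u = -v := (f_eq huv).resolve_left hne
      have hv0 : v ≠ 0 := by
        rintro rfl
        exact hne (by rw [h1, neg_zero])
      exact not_forward h h0 hi hno 0 X hX t ht hm
        (neg_pair h0 hi hX.cpt hX.con hX.sub hv0 hv (h1 ▸ hu))

/-- Points of the same grand orbit in proper subcontinua that meet principal sets. -/
theorem wander (h : Bo c ψ) (h0 : (0 : ℂ) ∈ K c) (hi : interior (K c) = ∅)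
    (hno : ∀ T, ¬ Half c T) {X Y : Set ℂ} (hX : PS c X) (hY : PS c Y) {s t : ℝ}
    (hs : ¬ K c ⊆ principal ψ s) (ht : ¬ K c ⊆ principal ψ t)
    (hXs : (X ∩ principal ψ s).Nonempty) (hYt : (Y ∩ principal ψ t).Nonempty) (n m : ℕ)
    {x y : ℂ} (hx : x ∈ X) (hy : y ∈ Y) (hxy : (f c)^[n] x = (f c)^[m] y) :
    ∃ k : ℤ, (2 : ℝ) ^ n * s - 2 ^ m * t = k := by
  have hU := (hX.iter hno n).union hi hno (hY.iter hno m)
    ⟨(f c)^[n] x, ⟨x, hx, rfl⟩, y, hy, hxy.symm⟩
  have hPn := ((principal_PS h hs).iter hno n).ne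
  have hPm := ((principal_PS h ht).iter hno m).ne
  rw [principal_iter h] at hPn hPm
  obtain ⟨u, hu1, hu2⟩ := hXs
  obtain ⟨v, hv1, hv2⟩ := hYt
  exact no_two h h0 hi hno hU hPn hPm
    ⟨(f c)^[n] u, Or.inl ⟨u, hu1, rfl⟩, by rw [← principal_iter h]; exact ⟨u, hu2, rfl⟩⟩
    ⟨(f c)^[m] v, Or.inr ⟨v, hv1, rfl⟩, by rw [← principal_iter h]; exact ⟨v, hv2, rfl⟩⟩

end RY
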