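import Pool.Agent.Work.MP_065151_ry.Two

/-!
# The grand orbit of the critical point
-/

set_option autoImplicit false

open Topology Metric Filter Set

namespace RY

open R4C (f K)
open HH

variable {c : ℂ} {ψ : ℂ → ℂ}

lemma psi_neg (h : Bo c ψ) {w : ℂ} (hw : 1 < ‖w‖) : ψ (-w) = -ψ w := by
  have hw' : 1 < ‖-w‖ := by rwa [norm_neg]
  have h1 : f c (ψ (-w)) = f c (ψ w) := by rw [← h.eqn _ hw', ← h.eqn _ hw, neg_sq]
  rcases f_eq h1 with h2 | h2
  · exfalso
    have h3 := h.inj hw' hw h2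
    have h4 : w = 0 := self_eq_neg.1 h3.symm
    rw [h4, norm_zero] at hw
    linarith
  · exact h2

lemma ray_half (h : Bo c ψ) (t : ℝ) : ray ψ (t + 1 / 2) = Neg.neg ⁻¹' ray ψ t := by
  have he : Complex.exp (2 * Real.pi * Complex.I * ((t + 1 / 2 : ℝ) : ℂ)) =
      -Complex.exp (2 * Real.pi * Complex.I * t) := by
    have h1 : (2 * Real.pi * Complex.I * ((t + 1 / 2 : ℝ) : ℂ)) =
        2 * Real.pi * Complex.I * t + Real.pi * Complex.I := by
      push_cast
      ring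
    rw [h1, Complex.exp_add, Complex.exp_pi_mul_I, mul_neg_one]
  ext z
  constructor
  · rintro ⟨r, hr, rfl⟩
    refine ⟨r, hr, ?_⟩
    simp only
    rw [he, mul_neg, psi_neg h (pol_gt hr t), neg_neg]
  · rintro ⟨r, hr, h1⟩
    refine ⟨r, hr, ?_⟩
    simp only at h1 ⊢
    rw [he, mul_neg, psi_neg h (pol_gt hr t), h1, neg_neg]

lemma principal_half (h : Bo c ψ) (t : ℝ) : principal ψ (t + 1 / 2) = nH (principal ψ t) := by
  unfold HH.principal nH
  rw [ray_half h, Set.preimage_diff]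
  congr 1
  exact ((Homeomorph.neg ℂ).preimage_closure (ray ψ t)).symm

lemma ray_image (h : Bo c ψ) (t : ℝ) : f c '' ray ψ t = ray ψ (2 * t) := by
  have he : Complex.exp (2 * Real.pi * Complex.I * ((2 * t : ℝ) : ℂ)) =
      Complex.exp (2 * Real.pi * Complex.I * t) ^ 2 := by
    rw [← Complex.exp_nat_mul]
    congr 1
    push_cast
    ring
  ext z
  constructor
  · rintro ⟨_, ⟨r, hr, rfl⟩, rfl⟩
    have hr : 1 < r := hr
    refine ⟨r ^ 2, one_lt_pow₀ hr two_ne_zero, ?_⟩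
    simp only
    rw [← h.eqn _ (pol_gt hr t), he, mul_pow, Complex.ofReal_pow]
  · rintro ⟨r, hr, rfl⟩
    have hr : 1 < r := hr
    have h1 : 1 < Real.sqrt r := by
      rw [show (1 : ℝ) = Real.sqrt 1 by simp]
      exact Real.sqrt_lt_sqrt (by norm_num) hr
    refine ⟨_, ⟨Real.sqrt r, h1, rfl⟩, ?_⟩
    simp only
    rw [← h.eqn _ (pol_gt h1 t), he, mul_pow, ← Complex.ofReal_pow,
      Real.sq_sqrt (by linarith : (0 : ℝ) ≤ r)]

lemma principal_image (h : Bo c ψ) (t : ℝ) : f c '' principal ψ t = principal ψ (2 * t) := by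
  apply Set.Subset.antisymm
  · rintro _ ⟨z, hz, rfl⟩
    refine mem_principal h ?_ ((f_mem_K c z).2 (principal_sub h t hz))
    rw [← ray_image h]
    exact (image_closure_subset_closure_image (f_cont c)) ⟨z, hz.1, rfl⟩
  · intro y hy
    have hyK := principal_sub h _ hy
    have h1 := hy.1
    rw [← ray_image h] at h1
    set C := closure (ray ψ t) ∩ f c ⁻¹' closedBall y 1 with hC
    have hCc : IsCompact C :=
      (preimage_compact c (isCompact_closedBall y 1)).inter_left isClosed_closure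
    have h2 : y ∈ f c '' C := by
      rw [← (hCc.image (f_cont c)).isClosed.closure_eq, Metric.mem_closure_iff]
      intro ε hε
      obtain ⟨_, ⟨u, hu, rfl⟩, hu2⟩ := Metric.mem_closure_iff.1 h1 (min ε 1) (lt_min hε one_pos)
      refine ⟨f c u, ⟨u, ⟨subset_closure hu, ?_⟩, rfl⟩, hu2.trans_le (min_le_left _ _)⟩
      rw [Set.mem_preimage, mem_closedBall, dist_comm]
      exact hu2.le.trans (min_le_right _ _)
    obtain ⟨u, hu, rfl⟩ := h2
    exact ⟨u, mem_principal h hu.1 ((f_mem_K c u).1 hyK), rfl⟩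

lemma PS.image (hno : ∀ T, ¬ Half c T) {X : Set ℂ} (hX : PS c X) : PS c (f c '' X) := by
  refine ⟨hX.cpt.image (f_cont c), hX.con.image _ (f_cont c).continuousOn, ?_, fun h1 => ?_⟩
  · rintro _ ⟨z, hz, rfl⟩
    exact (f_mem_K c z).2 (hX.sub hz)
  · obtain ⟨T, hT⟩ := half_of_image hX.cpt hX.con hX.sub hX.ne
      ⟨1, by rw [Function.iterate_one]; exact h1⟩
    exact hno T hT

/-- Lifting a proper subcontinuum. -/
lemma lift (h0 : (0 : ℂ) ∈ K c) (hi : interior (K c) = ∅) {X : Set ℂ} (hX : PS c X) {z : ℂ}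
    (hz : f c z ∈ X) : ∃ X', PS c X' ∧ z ∈ X' ∧ ∀ x ∈ X, ∃ x' ∈ X', f c x' = x := by
  by_cases hc : c ∈ X
  · refine ⟨f c ⁻¹' X, ⟨preimage_compact c hX.cpt, preimage_conn c hX.cpt hX.con hc, ?_,
      not_sub_pre hX.ne⟩, hz, fun x hx => ?_⟩
    · intro u hu
      exact (f_mem_K c u).1 (hX.sub hu)
    · obtain ⟨u, rfl⟩ := f_surj c x
      exact ⟨u, hx, rfl⟩
  · obtain ⟨s, hs, hsq⟩ := sqrt_of_log (log_unbdd hX.cpt (full_sub h0 hi hX.sub)
      (compl_unbdd hX.cpt.isBounded) disjoint_compl_left (x := c) hc)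
    have hfs : ∀ z ∈ X, f c (s z) = z := by
      intro z hz
      show s z ^ 2 + c = z
      rw [hsq z hz]
      ring
    have hsub : s '' X ⊆ K c := by
      rintro _ ⟨x, hx, rfl⟩
      rw [← f_mem_K, hfs x hx]
      exact hX.sub hx
    have hA : PS c (s '' X) := by
      refine ⟨hX.cpt.image_of_continuousOn hs, hX.con.image _ hs, hsub, fun h1 => ?_⟩
      have h2 : s (f c z) ∈ K c := hsub ⟨_, hz, rfl⟩
      obtain ⟨x, hx, hx2⟩ := h1 ((neg_mem_K c _).2 h2)
      have h3 : f c (s x) = f c (s (f c z)) := by rw [hx2, f_neg]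
      rw [hfs x hx, hfs _ hz] at h3
      rw [h3] at hx2
      have h4 : s (f c z) = 0 := self_eq_neg.1 hx2
      have h5 := hfs _ hz
      rw [h4, f_zero] at h5
      exact hc (h5 ▸ hz)
    rcases f_eq (hfs _ hz) with h1 | h1
    · exact ⟨s '' X, hA, ⟨_, hz, h1⟩, fun x hx => ⟨s x, ⟨x, hx, rfl⟩, hfs x hx⟩⟩
    · refine ⟨nH (s '' X), hA.neg, ?_, fun x hx => ⟨-(s x), ?_, by rw [f_neg]; exact hfs x hx⟩⟩
      · rw [mem_nH, ← h1]
        exact ⟨_, hz, rfl⟩
      · rw [mem_nH, neg_neg]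
        exact ⟨x, hx, rfl⟩

lemma not_forward (h : Bo c ψ) (h0 : (0 : ℂ) ∈ K c) (hi : interior (K c) = ∅)
    (hno : ∀ T, ¬ Half c T) (n : ℕ) : ∀ (X : Set ℂ), PS c X → ∀ t : ℝ,
      ¬ K c ⊆ principal ψ t → (X ∩ principal ψ t).Nonempty → (f c)^[n] 0 ∉ X := by
  have hhalf : ∀ t, ¬ K c ⊆ principal ψ t → ¬ K c ⊆ principal ψ (t + 1 / 2) := by
    intro t ht h1
    apply ht
    intro z hz
    have h2 := h1 ((neg_mem_K c z).2 hz)
    rwa [principal_half h, mem_nH, neg_neg] at h2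
  induction n with
  | zero =>
    intro X hX t ht hm h0X
    have h0X : (0 : ℂ) ∈ X := h0X
    have hU := hX.union hi hno hX.neg ⟨0, h0X, by rw [mem_nH, neg_zero]; exact h0X⟩
    obtain ⟨x, hx1, hx2⟩ := hm
    obtain ⟨n, hn⟩ := no_two h h0 hi hno hU (s := t + 1 / 2) (t := t) (hhalf t ht) ht
      ⟨-x, Or.inr (by rw [mem_nH, neg_neg]; exact hx1), by
        rw [principal_half h, mem_nH, neg_neg]; exact hx2⟩ ⟨x, Or.inl hx1, hx2⟩
    have h1 : (2 : ℝ) * n = 1 := by linarith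
    have h2 : (2 : ℤ) * n = 1 := by exact_mod_cast h1
    omega
  | succ n ih =>
    intro X hX t ht hm hnX
    rw [Function.iterate_succ_apply'] at hnX
    obtain ⟨X', hX', hz, hx'⟩ := lift h0 hi hX hnX
    obtain ⟨y, hy1, hy2⟩ := hm
    have himg : f c '' principal ψ (t / 2) = principal ψ t := by
      rw [principal_image h]
      congr 1
      ring
    have hy3 := hy2
    rw [← himg] at hy3
    obtain ⟨u, hu, hu2⟩ := hy3
    have hne : ¬ K c ⊆ principal ψ (t / 2) := by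
      intro h1
      apply ht
      rw [← himg]
      intro z hz
      obtain ⟨v, rfl⟩ := f_surj c z
      exact ⟨v, h1 ((f_mem_K c v).1 hz), rfl⟩
    obtain ⟨x', hx'1, hx'2⟩ := hx' y hy1
    rcases f_eq (hx'2.trans hu2.symm) with h1 | h1
    · exact ih X' hX' (t / 2) hne ⟨x', hx'1, h1 ▸ hu⟩ hz
    · refine ih X' hX' (t / 2 + 1 / 2) (hhalf _ hne) ⟨x', hx'1, ?_⟩ hz
      rw [principal_half h, mem_nH, h1, neg_neg]
      exact hu

/-- **The grand orbit.** -/
theorem not_orbit (h : Bo c ψ) (h0 : (0 : ℂ) ∈ K c) (hi : interior (K c) = ∅)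
    (hno : ∀ T, ¬ Half c T) (n m : ℕ) : ∀ (X : Set ℂ), PS c X → ∀ t : ℝ,
      ¬ K c ⊆ principal ψ t → (X ∩ principal ψ t).Nonempty → ∀ z ∈ X,
        (f c)^[n] z ≠ (f c)^[m] 0 := by
  induction n with
  | zero =>
    intro X hX t ht hm z hz h1
    have h1 : z = (f c)^[m] 0 := h1
    exact not_forward h h0 hi hno m X hX t ht hm (h1 ▸ hz)
  | succ n ih =>
    intro X hX t ht hm z hz h1
    rw [Function.iterate_succ_apply] at h1
    have hP := (principal_PS h ht).image hno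
    rw [principal_image h] at hP
    obtain ⟨x, hx1, hx2⟩ := hm
    refine ih (f c '' X) (hX.image hno) (2 * t) hP.ne ⟨f c x, ⟨x, hx1, rfl⟩, ?_⟩ (f c z)
      ⟨z, hz, rfl⟩ h1
    rw [← principal_image h]
    exact ⟨x, hx2, rfl⟩

end RY
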