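import Pool.Agent.Work.MP_065151_hh.Rays

/-!
# Two rays and a continuum separate the plane
-/

set_option autoImplicit false

open Topology Metric Filter Set

namespace RY

open R4C (f K)
open HH

variable {c : ℂ} {ψ : ℂ → ℂ}

/-- The union of the rays with angles in `I`. -/
def Cone (ψ : ℂ → ℂ) (I : Set ℝ) : Set ℂ := Ph ψ '' (Ioi (1 : ℝ) ×ˢ I)

lemma cone_conn (h : Bo c ψ) {I : Set ℝ} (hI : IsPreconnected I) : IsPreconnected (Cone ψ I) := by
  refine (isPreconnected_Ioi.prod hI).image _ ((Ph_cont h).mono ?_)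
  rintro ⟨r, t⟩ ⟨hr, -⟩
  exact ⟨hr, Set.mem_univ _⟩

lemma ray_sub_cone {I : Set ℝ} {t : ℝ} (ht : t ∈ I) : ray ψ t ⊆ Cone ψ I := by
  rintro _ ⟨r, hr, rfl⟩
  exact ⟨(r, t), ⟨hr, ht⟩, rfl⟩

lemma cone_compl (h : Bo c ψ) {I : Set ℝ} {z : ℂ} (hz : z ∈ Cone ψ I) : z ∉ K c := by
  obtain ⟨⟨r, t⟩, ⟨hr, -⟩, rfl⟩ := hz
  exact psi_compl h (pol_gt hr t)

lemma angle (h : Bo c ψ) {r r' u u' : ℝ} (hr : 1 < r) (hr' : 1 < r')
    (he : Ph ψ (r, u) = Ph ψ (r', u')) : ∃ n : ℤ, u = u' + n := by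
  have h1 := h.inj (pol_gt hr u) (pol_gt hr' u') he
  have h2 : r = r' := by
    have := congrArg norm h1
    rwa [norm_pol (by linarith), norm_pol (by linarith)] at this
  subst h2
  have h3 : (r : ℂ) ≠ 0 := by
    rw [Complex.ofReal_ne_zero]
    linarith
  have h4 := mul_left_cancel₀ h3 h1
  obtain ⟨n, hn⟩ := Complex.exp_eq_exp_iff_exists_int.1 h4
  refine ⟨n, ?_⟩
  have h5 : (2 * Real.pi * Complex.I : ℂ) ≠ 0 := Complex.two_pi_I_ne_zero
  have h6 : (u : ℂ) = u' + n := by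
    apply mul_left_cancel₀ h5
    linear_combination hn
  exact_mod_cast h6

lemma ray_inter_cone (h : Bo c ψ) {I : Set ℝ} {t : ℝ} (hI : ∀ u ∈ I, ∀ n : ℤ, u ≠ t + n) {z : ℂ}
    (hz : z ∈ Cone ψ I) : z ∉ ray ψ t := by
  rintro ⟨r', hr', h1⟩
  obtain ⟨⟨r, u⟩, ⟨hr, hu⟩, rfl⟩ := hz
  obtain ⟨n, hn⟩ := angle h hr hr' h1.symm
  exact hI u hu n hn

lemma ray_add_int (ψ : ℂ → ℂ) (t : ℝ) (n : ℤ) : ray ψ (t + n) = ray ψ t := by
  unfold ray
  refine Set.image_congr fun r _ => ?_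
  congr 2
  rw [Complex.exp_eq_exp_iff_exists_int]
  refine ⟨n, ?_⟩
  push_cast
  ring

lemma cover (h : Bo c ψ) {s t : ℝ} {z : ℂ} (hz : z ∉ K c) :
    z ∈ ray ψ s ∨ z ∈ ray ψ t ∨ z ∈ Cone ψ (Ioo s t) ∨ z ∈ Cone ψ (Ioo t (s + 1)) := by
  have hz2 : z ∈ ψ '' {w | 1 < ‖w‖} := by rw [h.img]; exact hz
  obtain ⟨w, hw, rfl⟩ := hz2
  have hw : 1 < ‖w‖ := hw
  obtain ⟨r, u, hr1, -, -, hru⟩ := exists_angle (a := 0) (b := 1) (m := 0) (by norm_num) w hw
  rw [pow_zero, pow_one] at hru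
  set n : ℤ := ⌊u - s⌋ with hn
  have hn1 : (n : ℝ) ≤ u - s := Int.floor_le _
  have hn2 : u - s < n + 1 := Int.lt_floor_add_one _
  have hru2 : (r : ℂ) * Complex.exp (2 * Real.pi * Complex.I * ((u - n : ℝ) : ℂ)) = w := by
    rw [← hru]
    congr 1
    rw [Complex.exp_eq_exp_iff_exists_int]
    refine ⟨-n, ?_⟩
    push_cast
    ring
  have key : ∀ I : Set ℝ, u - n ∈ I → ψ w ∈ Cone ψ I := by
    intro I hI
    refine ⟨(r, u - n), ⟨hr1, hI⟩, ?_⟩
    show ψ ((r : ℂ) * Complex.exp (2 * Real.pi * Complex.I * ((u - n : ℝ) : ℂ))) = ψ w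
    rw [hru2]
  have key2 : ∀ v : ℝ, u - n = v → ψ w ∈ ray ψ v := by
    intro v hv
    refine ⟨r, hr1, ?_⟩
    show ψ ((r : ℂ) * Complex.exp (2 * Real.pi * Complex.I * (v : ℂ))) = ψ w
    rw [← hv, hru2]
  rcases eq_or_lt_of_le (show s ≤ u - n by linarith) with h1 | h1
  · exact Or.inl (key2 s h1.symm)
  rcases lt_trichotomy (u - n) t with h2 | h2 | h2
  · exact Or.inr (Or.inr (Or.inl (key _ ⟨h1, h2⟩)))
  · exact Or.inr (Or.inl (key2 t h2))
  · exact Or.inr (Or.inr (Or.inr (key _ ⟨h2, by linarith⟩)))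

lemma int_gap {s u : ℝ} {n : ℤ} (h1 : s < u) (h2 : u < s + 1) : u ≠ s + n := by
  intro h
  have h3 : (0 : ℝ) < n := by linarith
  have h4 : (n : ℝ) < 1 := by linarith
  have h5 : (0 : ℤ) < n := by exact_mod_cast h3
  have h6 : n < (1 : ℤ) := by exact_mod_cast h4
  omega

/-- **Separation.** -/
theorem sep (h : Bo c ψ) {Y : Set ℂ} (hY : IsCompact Y) (hYc : IsPreconnected Y) (hYK : Y ⊆ K c)
    {s t : ℝ} (hst : s < t) (hts : t < s + 1) (hs : principal ψ s ⊆ Y) (ht : principal ψ t ⊆ Y)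
    {D : Set ℂ} (hD : IsPreconnected D) (hDa : ∀ z ∈ D, z ∉ Y ∧ z ∉ ray ψ s ∧ z ∉ ray ψ t)
    (hD1 : (D ∩ Cone ψ (Ioo s t)).Nonempty) (hD2 : (D ∩ Cone ψ (Ioo t (s + 1))).Nonempty) :
    False := by
  obtain ⟨-, -, -, -, hKcpt, -, -, -, -, -, -⟩ := R4C.stmt_ELM c
  have hclosed : ∀ u, principal ψ u ⊆ Y → ∀ z, z ∈ closure (ray ψ u) → z ∈ Y ∨ z ∈ ray ψ u := by
    intro u hu z hz
    by_cases h1 : z ∈ ray ψ u
    · exact Or.inr h1
    · exact Or.inl (hu ⟨hz, h1⟩)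
  have hEc : ∀ u, principal ψ u ⊆ Y → IsPreconnected (Y ∪ closure (ray ψ u)) := by
    intro u hu
    obtain ⟨y, hy⟩ := principal_nonempty h u
    exact IsPreconnected.union y (hu hy) hy.1 hYc (ray_conn h u).closure
  have hEu : ∀ u, ¬ Bornology.IsBounded (Y ∪ closure (ray ψ u)) := fun u hb =>
    ray_unbdd h u (hb.subset (subset_closure.trans Set.subset_union_right))
  obtain ⟨y0, hy0⟩ := principal_nonempty h s
  have hy0Y := hs hy0
  obtain ⟨B1, hB1c, hB1⟩ := sqrt_unbdd (hY.isClosed.union isClosed_closure) (hEc s hs) (hEu s)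
    (x := y0) (Or.inl hy0Y)
  obtain ⟨B2, hB2c, hB2⟩ := sqrt_unbdd (hY.isClosed.union isClosed_closure) (hEc t ht) (hEu t)
    (x := y0) (Or.inl hy0Y)
  set E1 := Y ∪ closure (ray ψ s) with hE1
  set E2 := Y ∪ closure (ray ψ t) with hE2
  have hE1m : ∀ z, z ∉ Y → z ∉ ray ψ s → z ∉ E1 := by
    rintro z h1 h2 (h3 | h3)
    · exact h1 h3
    · exact (hclosed s hs z h3).elim h1 h2
  have hE2m : ∀ z, z ∉ Y → z ∉ ray ψ t → z ∉ E2 := by
    rintro z h1 h2 (h3 | h3)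
    · exact h1 h3
    · exact (hclosed t ht z h3).elim h1 h2
  have hc1 : ∀ z ∈ Cone ψ (Ioo s t), z ∉ Y ∧ z ∉ ray ψ s ∧ z ∉ ray ψ t := by
    intro z hz
    refine ⟨fun h1 => cone_compl h hz (hYK h1), ray_inter_cone h ?_ hz, ray_inter_cone h ?_ hz⟩
    · rintro u ⟨hu1, hu2⟩ n
      exact int_gap hu1 (by linarith)
    · rintro u ⟨hu1, hu2⟩ n hn
      refine int_gap (s := t - 1) (u := u) (n := n + 1) (by linarith) (by linarith) ?_
      rw [hn]
      push_cast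
      ring
  have hc2 : ∀ z ∈ Cone ψ (Ioo t (s + 1)), z ∉ Y ∧ z ∉ ray ψ s ∧ z ∉ ray ψ t := by
    intro z hz
    refine ⟨fun h1 => cone_compl h hz (hYK h1), ray_inter_cone h ?_ hz, ray_inter_cone h ?_ hz⟩
    · rintro u ⟨hu1, hu2⟩ n
      exact int_gap (by linarith) hu2
    · rintro u ⟨hu1, hu2⟩ n
      exact int_gap hu1 (by linarith)
  set D' := (D ∪ Cone ψ (Ioo s t)) ∪ Cone ψ (Ioo t (s + 1)) with hD'
  have hD'c : IsPreconnected D' := by
    obtain ⟨x, hx1, hx2⟩ := hD1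
    obtain ⟨y, hy1, hy2⟩ := hD2
    exact IsPreconnected.union y (Or.inl hy1) hy2
      (IsPreconnected.union x hx1 hx2 hD (cone_conn h isPreconnected_Ioo))
      (cone_conn h isPreconnected_Ioo)
  have hD'a : ∀ z ∈ D', z ∉ Y ∧ z ∉ ray ψ s ∧ z ∉ ray ψ t := by
    rintro z ((hz | hz) | hz)
    · exact hDa z hz
    · exact hc1 z hz
    · exact hc2 z hz
  have hsub1 : D' ⊆ E1ᶜ := fun z hz => hE1m z (hD'a z hz).1 (hD'a z hz).2.1
  have hsub2 : D' ⊆ E2ᶜ := fun z hz => hE2m z (hD'a z hz).1 (hD'a z hz).2.2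
  obtain ⟨B3, hB3c, hB3, hB13⟩ : ∃ B3 : ℂ → ℂ, ContinuousOn B3 E2ᶜ ∧
      (∀ z ∉ E2, B3 z ^ 2 = z - y0) ∧ ∀ z ∈ D', B1 z = B3 z := by
    rcases hD'c.eq_or_eq_neg_of_sq_eq (hB1c.mono hsub1) (hB2c.mono hsub2)
      (fun z hz => by
        simp only [Pi.pow_apply]
        rw [hB1 z (hsub1 hz), hB2 z (hsub2 hz)])
      (fun {z} hz h1 => by
        have h2 := hB2 z (hsub2 hz)
        rw [h1] at h2
        have h3 : z = y0 := by linear_combination -h2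
        exact (hD'a z hz).1 (h3 ▸ hy0Y)) with h1 | h1
    · exact ⟨B2, hB2c, hB2, fun z hz => h1 hz⟩
    · exact ⟨fun z => -B2 z, hB2c.neg, fun z hz => by rw [neg_sq]; exact hB2 z hz,
        fun z hz => h1 hz⟩
  classical
  set Q : ℂ → ℂ := fun z => if z ∈ ray ψ s then B3 z else B1 z with hQ
  have hKY : ∀ z, z ∉ K c → z ∉ Y := fun z hz h1 => hz (hYK h1)
  have hst' : ∀ z, z ∈ ray ψ s → z ∉ ray ψ t := by
    intro z hz
    refine ray_inter_cone h ?_ (ray_sub_cone (Set.mem_singleton s) hz)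
    intro u hu n hn
    rw [Set.mem_singleton_iff] at hu
    subst hu
    refine int_gap (s := t - 1) (u := u) (n := n + 1) (by linarith) (by linarith) ?_
    rw [hn]
    push_cast
    ring
  have hQ2 : ∀ z, z ∉ K c → z ∉ E2 → Q z = B3 z := by
    intro z hz hz2
    by_cases h1 : z ∈ ray ψ s
    · simp only [hQ, if_pos h1]
    · simp only [hQ, if_neg h1]
      refine hB13 z ?_
      rcases cover (s := s) (t := t) h hz with h2 | h2 | h2 | h2
      · exact absurd h2 h1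
      · exact absurd (Or.inr (subset_closure h2)) hz2
      · exact Or.inl (Or.inr h2)
      · exact Or.inr h2
  have hQ1 : ∀ z, z ∉ E1 → Q z = B1 z := by
    intro z hz
    have h1 : z ∉ ray ψ s := fun h2 => hz (Or.inr (subset_closure h2))
    simp only [hQ, if_neg h1]
  have hE1o : IsOpen E1ᶜ := (hY.isClosed.union isClosed_closure).isOpen_compl
  have hE2o : IsOpen E2ᶜ := (hY.isClosed.union isClosed_closure).isOpen_compl
  have hQc : ∀ z, z ∉ K c → ContinuousAt Q z := by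
    intro z hz
    by_cases h1 : z ∈ ray ψ s
    · have h2 : z ∉ E2 := hE2m z (hKY z hz) (hst' z h1)
      have ho : IsOpen (E2ᶜ ∩ (K c)ᶜ) := hE2o.inter hKcpt.isClosed.isOpen_compl
      exact (((hB3c.mono Set.inter_subset_left).congr fun w hw =>
        hQ2 w hw.2 hw.1).continuousAt (ho.mem_nhds ⟨h2, hz⟩))
    · have h2 : z ∉ E1 := hE1m z (hKY z hz) h1
      exact ((hB1c.congr fun w hw => hQ1 w hw).continuousAt (hE1o.mem_nhds h2))
  have hQs : ∀ z, z ∉ K c → Q z ^ 2 = z - y0 := by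
    intro z hz
    by_cases h1 : z ∈ ray ψ s
    · have h2 : z ∉ E2 := hE2m z (hKY z hz) (hst' z h1)
      rw [hQ2 z hz h2, hB3 z h2]
    · have h2 : z ∉ E1 := hE1m z (hKY z hz) h1
      rw [hQ1 z h2, hB1 z h2]
  obtain ⟨R, hR⟩ := hKcpt.isBounded.subset_closedBall y0
  have hsph : ∀ z ∈ sphere y0 (max R 0 + 1), z ∉ K c := by
    intro z hz h1
    have h2 := mem_closedBall.1 (hR h1)
    rw [mem_sphere] at hz
    have := le_max_left R 0
    linarith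
  exact circle (max R 0 + 1) (by have := le_max_right R 0; linarith) y0 Q
    (fun z hz => (hQc z (hsph z hz)).continuousWithinAt) fun z hz => hQs z (hsph z hz)

end RY
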