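import Pool.Agent.Work.MP_065151_ry.Sep

/-!
# A proper subcontinuum meets at most one principal set
-/

set_option autoImplicit false

open Topology Metric Filter Set

namespace RY

open R4C (f K)
open HH

variable {c : ℂ} {ψ : ℂ → ℂ}

/-- A proper subcontinuum of the filled Julia set. -/
structure PS (c : ℂ) (A : Set ℂ) : Prop where
  cpt : IsCompact A
  con : IsPreconnected A
  sub : A ⊆ K c
  ne : ¬ K c ⊆ A

lemma PS.neg {A : Set ℂ} (h : PS c A) : PS c (nH A) := by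
  refine ⟨neg_cpt h.cpt, neg_con h.con, fun z hz => (neg_mem_K c z).1 (h.sub hz), fun h1 => h.ne ?_⟩
  intro z hz
  have h2 := h1 ((neg_mem_K c z).2 hz)
  rwa [mem_nH, neg_neg] at h2

lemma PS.union (hi : interior (K c) = ∅) (hno : ∀ T, ¬ Half c T) {A B : Set ℂ} (hA : PS c A)
    (hB : PS c B) (hm : (A ∩ B).Nonempty) : PS c (A ∪ B) := by
  obtain ⟨x, hx1, hx2⟩ := hm
  refine ⟨hA.cpt.union hB.cpt, IsPreconnected.union x hx1 hx2 hA.con hB.con,
    Set.union_subset hA.sub hB.sub, fun h1 => ?_⟩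
  obtain ⟨T, hT⟩ := decomp_half hi hA.cpt hA.con hA.sub hB.cpt.isClosed h1 hA.ne hB.ne
  exact hno T hT

lemma diff_conn (h0 : (0 : ℂ) ∈ K c) (hi : interior (K c) = ∅) (hno : ∀ T, ¬ Half c T) {Y : Set ℂ}
    (hY : PS c Y) (hYn : Y.Nonempty) : IsPreconnected (K c \ Y) := by
  obtain ⟨-, -, -, -, hKcpt, -, -, -, -, -, -⟩ := R4C.stmt_ELM c
  intro U V hU hV hsub h1 h2
  by_contra hcon
  have hdis : ∀ z ∈ K c, z ∉ Y → z ∈ U → z ∉ V := fun z hz hzY hzU hzV =>
    hcon ⟨z, ⟨hz, hzY⟩, hzU, hzV⟩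
  have hA : IsClosed ((K c \ V) ∪ Y) := (hKcpt.isClosed.sdiff hV).union hY.cpt.isClosed
  have hB : IsClosed ((K c \ U) ∪ Y) := (hKcpt.isClosed.sdiff hU).union hY.cpt.isClosed
  have hAK : (K c \ V) ∪ Y ⊆ K c := Set.union_subset Set.sdiff_subset hY.sub
  have hBK : (K c \ U) ∪ Y ⊆ K c := Set.union_subset Set.sdiff_subset hY.sub
  have hun : ((K c \ V) ∪ Y) ∪ ((K c \ U) ∪ Y) = K c := by
    refine Set.Subset.antisymm (Set.union_subset hAK hBK) fun z hz => ?_
    by_cases hzY : z ∈ Y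
    · exact Or.inl (Or.inr hzY)
    · by_cases hzU : z ∈ U
      · exact Or.inl (Or.inl ⟨hz, hdis z hz hzY hzU⟩)
      · exact Or.inr (Or.inl ⟨hz, hzU⟩)
  have hint : ((K c \ V) ∪ Y) ∩ ((K c \ U) ∪ Y) = Y := by
    refine Set.Subset.antisymm ?_ fun z hz => ⟨Or.inr hz, Or.inr hz⟩
    rintro z ⟨hz1 | hz1, hz2 | hz2⟩
    · by_contra hzY
      rcases hsub ⟨hz1.1, hzY⟩ with h3 | h3
      · exact hz2.2 h3
      · exact hz1.2 h3
    · exact hz2
    · exact hz1
    · exact hz1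
  have hAc : IsPreconnected ((K c \ V) ∪ Y) := by
    refine preconn_of_inter hA hB ?_ ?_ ?_
    · rw [hun]; exact (K_conn h0).isPreconnected
    · rw [hint]; exact hY.con
    · rw [hint]; exact hYn
  have hAcpt : IsCompact ((K c \ V) ∪ Y) := hKcpt.of_isClosed_subset hA hAK
  obtain ⟨T, hT⟩ := decomp_half hi hAcpt hAc hAK hB (by rw [hun]) (fun h3 => by
      obtain ⟨z, ⟨hz1, hz2⟩, hz3⟩ := h2
      rcases h3 hz1 with h4 | h4
      · exact h4.2 hz3
      · exact hz2 h4) (fun h3 => by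
      obtain ⟨z, ⟨hz1, hz2⟩, hz3⟩ := h1
      rcases h3 hz1 with h4 | h4
      · exact h4.2 hz3
      · exact hz2 h4)
  exact hno T hT

/-- Principal sets are limit sets of degenerate sectors. -/
lemma principal_eq (h : Bo c ψ) (t : ℝ) : principal ψ t = CI ψ t t := by
  apply Set.Subset.antisymm
  · intro z hz
    have hzK := principal_sub h t hz
    refine Set.mem_iInter.2 fun n => ?_
    set r0 : ℝ := 1 + 1 / ((n : ℝ) + 1) with hr0
    have hr1 : 1 < r0 := by have := width_pos n; linarith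
    have hsplit : ray ψ t ⊆ Sec ψ n t t ∪ (fun r : ℝ => Ph ψ (r, t)) '' Ici r0 := by
      rintro _ ⟨r, hr, rfl⟩
      rcases lt_or_ge r r0 with h1 | h1
      · exact Or.inl ⟨(r, t), ⟨⟨hr, h1⟩, ⟨le_rfl, le_rfl⟩⟩, rfl⟩
      · exact Or.inr ⟨r, h1, rfl⟩
    have h2 := closure_mono hsplit hz.1
    rw [closure_union] at h2
    rcases h2 with h2 | h2
    · exact h2
    exfalso
    obtain ⟨T, hT1, hT⟩ := psi_large h (‖z‖ + 1)
    have hcl : IsClosed ((fun r : ℝ => Ph ψ (r, t)) '' Icc r0 T) := by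
      refine (isCompact_Icc.image_of_continuousOn ?_).isClosed
      refine (Ph_cont h).comp (by fun_prop) fun r hr => ⟨?_, Set.mem_univ _⟩
      show 1 < r
      linarith [hr.1]
    have hzn : z ∈ ((fun r : ℝ => Ph ψ (r, t)) '' Icc r0 T)ᶜ := by
      rintro ⟨r, hr, rfl⟩
      exact psi_compl h (pol_gt (by linarith [hr.1]) t) hzK
    obtain ⟨δ, hδ, hb⟩ := Metric.isOpen_iff.1 hcl.isOpen_compl z hzn
    obtain ⟨y, ⟨r, hr, rfl⟩, hy⟩ := Metric.mem_closure_iff.1 h2 (min δ 1) (lt_min hδ one_pos)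
    have hr : r0 ≤ r := hr
    rw [dist_comm, dist_eq_norm] at hy
    have hnorm : ‖(r : ℂ) * Complex.exp (2 * Real.pi * Complex.I * t)‖ = r :=
      norm_pol (by linarith) t
    have h3 : r ≤ T := by
      by_contra hcon
      push Not at hcon
      have h3 : ‖z‖ + 1 < ‖Ph ψ (r, t)‖ :=
        hT ((r : ℂ) * Complex.exp (2 * Real.pi * Complex.I * t)) (by rw [hnorm]; exact hcon)
      have h4 : ‖Ph ψ (r, t)‖ ≤ ‖Ph ψ (r, t) - z‖ + ‖z‖ := by
        have := norm_add_le (Ph ψ (r, t) - z) z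
        rwa [sub_add_cancel] at this
      have h5 : ‖Ph ψ (r, t) - z‖ < 1 := hy.trans_le (min_le_right _ _)
      linarith
    refine hb (a := Ph ψ (r, t)) ?_ ⟨r, ⟨hr, h3⟩, rfl⟩
    rw [mem_ball, dist_eq_norm]
    exact hy.trans_le (min_le_left _ _)
  · intro y hy
    refine mem_principal h ?_ (CI_sub h t t hy)
    refine closure_mono ?_ (Set.mem_iInter.1 hy 0)
    rintro _ ⟨⟨r, s⟩, ⟨⟨hr, -⟩, ⟨hs1, hs2⟩⟩, rfl⟩
    simp only at hs1 hs2 hr
    have : s = t := le_antisymm hs2 hs1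
    subst this
    exact ⟨r, hr, rfl⟩

lemma principal_PS (h : Bo c ψ) {t : ℝ} (ht : ¬ K c ⊆ principal ψ t) : PS c (principal ψ t) :=
  ⟨by rw [principal_eq h]; exact CI_compact h t t, by rw [principal_eq h]; exact CI_conn h t t,
    principal_sub h t, ht⟩

lemma not_CI (h : Bo c ψ) (hi : interior (K c) = ∅) (hno : ∀ T, ¬ Half c T) {Y : Set ℂ}
    (hY : PS c Y) {a b : ℝ} (hab : a < b) : ¬ CI ψ a b ⊆ Y := by
  intro hsub
  obtain ⟨m, hm⟩ := pow_unbounded_of_one_lt (1 / (b - a)) (one_lt_two)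
  rw [div_lt_iff₀ (sub_pos.2 hab)] at hm
  obtain ⟨T, hT⟩ := half_of_image hY.cpt hY.con hY.sub hY.ne
    ⟨m, (CI_image h hi hm.le).trans (Set.image_mono hsub)⟩
  exact hno T hT

lemma core (h : Bo c ψ) (h0 : (0 : ℂ) ∈ K c) (hi : interior (K c) = ∅) (hno : ∀ T, ¬ Half c T)
    {X : Set ℂ} (hX : PS c X) {s t : ℝ} (hst : s < t) (hts : t < s + 1)
    (hs : ¬ K c ⊆ principal ψ s) (ht : ¬ K c ⊆ principal ψ t)
    (h1 : (X ∩ principal ψ s).Nonempty) (h2 : (X ∩ principal ψ t).Nonempty) : False := by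
  have hP1 := principal_PS h hs
  have hP2 := principal_PS h ht
  have hY1 := hX.union hi hno hP1 h1
  have hY := hY1.union hi hno hP2 (h2.mono (Set.inter_subset_inter_left _ Set.subset_union_left))
  set Y := (X ∪ principal ψ s) ∪ principal ψ t with hYd
  have hYn : Y.Nonempty := by
    obtain ⟨x, hx, -⟩ := h1
    exact ⟨x, Or.inl (Or.inl hx)⟩
  have hdc := diff_conn h0 hi hno hY hYn
  have key : ∀ a b : ℝ, a < b → ∃ z ∈ K c \ Y, IsPreconnected (insert z (Cone ψ (Icc a b))) := by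
    intro a b hab
    obtain ⟨z, hz1, hz2⟩ := Set.not_subset.1 (not_CI h hi hno hY hab)
    refine ⟨z, ⟨CI_sub h a b hz1, hz2⟩, ?_⟩
    refine (cone_conn h isPreconnected_Icc).subset_closure (Set.subset_insert _ _) ?_
    refine Set.insert_subset ?_ subset_closure
    refine closure_mono ?_ (Set.mem_iInter.1 hz1 0)
    exact Set.image_mono (Set.prod_mono_left fun r hr => hr.1)
  obtain ⟨z1, hz1, hC1⟩ := key (s + (t - s) / 3) (s + (t - s) / 2) (by linarith)
  obtain ⟨z2, hz2, hC2⟩ := key (t + (s + 1 - t) / 3) (t + (s + 1 - t) / 2) (by linarith)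
  set I1 := Icc (s + (t - s) / 3) (s + (t - s) / 2) with hI1
  set I2 := Icc (t + (s + 1 - t) / 3) (t + (s + 1 - t) / 2) with hI2
  have hI1s : I1 ⊆ Ioo s t := fun u hu => ⟨by linarith [hu.1], by linarith [hu.2]⟩
  have hI2s : I2 ⊆ Ioo t (s + 1) := fun u hu => ⟨by linarith [hu.1], by linarith [hu.2]⟩
  have hDc : IsPreconnected (((K c \ Y) ∪ insert z1 (Cone ψ I1)) ∪ insert z2 (Cone ψ I2)) :=
    IsPreconnected.union z2 (Or.inl hz2) (Set.mem_insert _ _)
      (IsPreconnected.union z1 hz1 (Set.mem_insert _ _) hdc hC1) hC2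
  have hK : ∀ z ∈ K c \ Y, z ∉ Y ∧ z ∉ ray ψ s ∧ z ∉ ray ψ t := fun z hz =>
    ⟨hz.2, fun h3 => ray_compl h h3 hz.1, fun h3 => ray_compl h h3 hz.1⟩
  have hcone1 : ∀ z ∈ Cone ψ I1, z ∉ Y ∧ z ∉ ray ψ s ∧ z ∉ ray ψ t := by
    intro z hz
    refine ⟨fun h3 => cone_compl h hz (hY.sub h3), ray_inter_cone h ?_ hz, ray_inter_cone h ?_ hz⟩
    · intro u hu n
      have := hI1s hu
      exact int_gap this.1 (by linarith [this.2])
    · intro u hu n hn
      have := hI1s hu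
      refine int_gap (s := t - 1) (u := u) (n := n + 1) (by linarith [this.1])
        (by linarith [this.2]) ?_
      rw [hn]
      push_cast
      ring
  have hcone2 : ∀ z ∈ Cone ψ I2, z ∉ Y ∧ z ∉ ray ψ s ∧ z ∉ ray ψ t := by
    intro z hz
    refine ⟨fun h3 => cone_compl h hz (hY.sub h3), ray_inter_cone h ?_ hz, ray_inter_cone h ?_ hz⟩
    · intro u hu n
      have := hI2s hu
      exact int_gap (by linarith [this.1]) this.2
    · intro u hu n
      have := hI2s hu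
      exact int_gap this.1 (by linarith [this.2])
  have hray : ∀ (I : Set ℝ) (u : ℝ), u ∈ I → (Cone ψ I).Nonempty := fun I u hu =>
    ⟨Ph ψ (2, u), (2, u), ⟨show (1 : ℝ) < 2 by norm_num, hu⟩, rfl⟩
  obtain ⟨x1, hx1⟩ := hray I1 (s + (t - s) / 3) ⟨le_rfl, by linarith⟩
  obtain ⟨x2, hx2⟩ := hray I2 (t + (s + 1 - t) / 3) ⟨le_rfl, by linarith⟩
  refine sep h hY.cpt hY.con hY.sub hst hts (fun z hz => Or.inl (Or.inr hz))
    (fun z hz => Or.inr hz) hDc ?_
    ⟨x1, Or.inl (Or.inr (Or.inr hx1)), Set.image_mono (Set.prod_mono_right hI1s) hx1⟩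
    ⟨x2, Or.inr (Or.inr hx2), Set.image_mono (Set.prod_mono_right hI2s) hx2⟩
  rintro z ((hz | hz | hz) | (hz | hz))
  · exact hK z hz
  · exact hK z (hz ▸ hz1)
  · exact hcone1 z hz
  · exact hK z (hz ▸ hz2)
  · exact hcone2 z hz

lemma principal_add_int (ψ : ℂ → ℂ) (t : ℝ) (n : ℤ) : principal ψ (t + n) = principal ψ t := by
  unfold HH.principal
  rw [ray_add_int]

/-- **At most one principal set.** -/
theorem no_two (h : Bo c ψ) (h0 : (0 : ℂ) ∈ K c) (hi : interior (K c) = ∅)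
    (hno : ∀ T, ¬ Half c T) {X : Set ℂ} (hX : PS c X) {s t : ℝ}
    (hs : ¬ K c ⊆ principal ψ s) (ht : ¬ K c ⊆ principal ψ t)
    (h1 : (X ∩ principal ψ s).Nonempty) (h2 : (X ∩ principal ψ t).Nonempty) :
    ∃ n : ℤ, s - t = n := by
  by_contra hcon
  push Not at hcon
  set n : ℤ := ⌊t - s⌋ with hn
  have hn1 : (n : ℝ) ≤ t - s := Int.floor_le _
  have hn2 : t - s < n + 1 := Int.lt_floor_add_one _
  have he : principal ψ (t + ((-n : ℤ) : ℝ)) = principal ψ t := principal_add_int ψ t (-n)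
  refine core h h0 hi hno hX (s := s) (t := t + ((-n : ℤ) : ℝ)) ?_ ?_ hs (by rw [he]; exact ht) h1
    (by rw [he]; exact h2)
  · push_cast
    refine lt_of_le_of_ne (by linarith) fun h3 => hcon (-n) ?_
    push_cast
    linarith
  · push_cast
    linarith

end RY
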